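import Pool.Agent.H28.VM.Basic

set_option autoImplicit false

open MeasureTheory

namespace Pool.Agent.H24.VM

open Pool.Agent.H28.VM

theorem measurableSet_Box : MeasurableSet Box := measurableSet_Icc.prod measurableSet_Icc

theorem volume_Box_lt_top : volume Box < ⊤ := by
  have : Bornology.IsBounded Box := (Metric.isBounded_Icc _ _).prod (Metric.isBounded_Icc _ _)
  exact this.measure_lt_top

instance : IsFiniteMeasure (volume.restrict Box) := ⟨by
  rw [Measure.restrict_apply_univ]; exact volume_Box_lt_top⟩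

theorem int1 (m : ℤ) : ∫ x in Set.Icc (-Real.pi) Real.pi, ee ((m : ℝ) * x) =
    if m = 0 then (2 * Real.pi : ℂ) else 0 := by
  rw [integral_Icc_eq_integral_Ioc, ← intervalIntegral.integral_of_le (by linarith [Real.pi_pos])]
  split_ifs with h
  · subst h
    simp only [Int.cast_zero, zero_mul, ee_zero, intervalIntegral.integral_const]
    rw [show Real.pi - -Real.pi = 2 * Real.pi by ring]
    simp
  · have h1 : (fun x : ℝ => ee ((m : ℝ) * x)) =
        fun x : ℝ => Complex.exp (((m : ℂ) * Complex.I) * x) := by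
      funext x; unfold ee; push_cast; ring_nf
    have hm : (m : ℂ) * Complex.I ≠ 0 := by
      simp [h]
    rw [h1, integral_exp_mul_complex hm]
    have h2 : Complex.exp ((m : ℂ) * Complex.I * (Real.pi : ℝ)) = ee ((m : ℝ) * Real.pi) := by
      unfold ee; push_cast; ring_nf
    have h3 : Complex.exp ((m : ℂ) * Complex.I * ((-Real.pi : ℝ) : ℂ)) = ee (-((m : ℝ) * Real.pi)) := by
      unfold ee; push_cast; ring_nf
    rw [h2, h3]
    have h4 : ee ((m : ℝ) * Real.pi) = ee (-((m : ℝ) * Real.pi)) := by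
      rw [← ee_add_two_pi_int (-((m : ℝ) * Real.pi)) m]
      congr 1; ring
    rw [h4, sub_self, zero_div]

theorem int2 (m : ℤ × ℤ) : ∫ z in Box, ee (dt m z) =
    if m = 0 then ((2 * Real.pi : ℂ)) ^ 2 else 0 := by
  have h1 : ∀ z : ℝ × ℝ, ee (dt m z) = ee ((m.1 : ℝ) * z.1) * ee ((m.2 : ℝ) * z.2) := by
    intro z; unfold dt; rw [ee_add]
  simp_rw [h1]
  unfold Box
  rw [Measure.volume_eq_prod, setIntegral_prod_mul (fun x => ee ((m.1 : ℝ) * x))
    (fun x => ee ((m.2 : ℝ) * x)), int1, int1]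
  by_cases h : m = 0
  · subst h; simp; ring
  · rw [if_neg h]
    have : m.1 ≠ 0 ∨ m.2 ≠ 0 := by
      by_contra hc
      push Not at hc
      exact h (Prod.ext hc.1 hc.2)
    rcases this with h' | h' <;> simp [h']

theorem continuous_dt (m : ℤ × ℤ) : Continuous (dt m) := by unfold dt; fun_prop

/-- orthogonality against `v` -/
theorem int_v {c : ℤ × ℤ → ℂ} (hc : Summable fun k => ‖c k‖) (m : ℤ × ℤ) (s : ℝ) :
    ∫ z in Box, ee (-(dt m z)) * v c s z = (2 * Real.pi : ℂ) ^ 2 * (c m * ee (-(nm m * s))) := by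
  set F : ℤ × ℤ → ℝ × ℝ → ℂ := fun k z => ee (-(dt m z)) * (c k * ee (dt k z - nm k * s)) with hF
  have hcont : ∀ k, Continuous (F k) := by
    intro k
    have h1 := continuous_dt m
    have h2 := continuous_dt k
    simp only [hF]
    fun_prop
  have hnorm : ∀ k z, ‖F k z‖ = ‖c k‖ := by
    intro k z; simp [hF]
  have hint : ∀ k, Integrable (F k) (volume.restrict Box) := by
    intro k
    refine Integrable.mono' (integrable_const (‖c k‖)) (hcont k).aestronglyMeasurable ?_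
    exact Filter.Eventually.of_forall fun z => (hnorm k z).le
  have hsum : Summable fun k => ∫ z in Box, ‖F k z‖ := by
    simp_rw [hnorm]
    simp only [integral_const]
    exact hc.const_smul _
  have h := hasSum_integral_of_summable_integral_norm hint hsum
  have h2 : ∀ z, ∑' k, F k z = ee (-(dt m z)) * v c s z := by
    intro z; simp only [hF, v]; rw [tsum_mul_left]
  simp_rw [h2] at h
  have h3 : ∀ k, ∫ z in Box, F k z =
      if k = m then (2 * Real.pi : ℂ) ^ 2 * (c m * ee (-(nm m * s))) else 0 := by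
    intro k
    have h4 : ∀ z, F k z = (c k * ee (-(nm k * s))) * ee (dt (k - m) z) := by
      intro z
      simp only [hF]
      have : dt (k - m) z = -(dt m z) + dt k z := by
        unfold dt; simp only [Prod.fst_sub, Prod.snd_sub]; push_cast; ring
      rw [this, ee_sub, ee_add]; ring
    simp_rw [h4]
    rw [integral_const_mul, int2]
    by_cases hk : k = m
    · subst hk; simp; ring
    · rw [if_neg (sub_ne_zero.mpr hk), if_neg hk, mul_zero]
  simp_rw [h3] at h
  have h5 := hasSum_ite_eq m ((2 * Real.pi : ℂ) ^ 2 * (c m * ee (-(nm m * s))))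
  exact h.unique h5

theorem int_vconj {c : ℤ × ℤ → ℂ} (hc : Summable fun k => ‖c k‖) (m : ℤ × ℤ) (s : ℝ) :
    ∫ z in Box, ee (-(dt m z)) * (starRingEnd ℂ) (v c s z) =
      (2 * Real.pi : ℂ) ^ 2 * ((starRingEnd ℂ) (c (-m)) * ee (nm m * s)) := by
  have h := int_v hc (-m) s
  have h1 : ∀ z, ee (-(dt m z)) * (starRingEnd ℂ) (v c s z) =
      (starRingEnd ℂ) (ee (-(dt (-m) z)) * v c s z) := by
    intro z
    rw [map_mul, ← ee_neg]
    congr 2
    unfold dt; simp only [Prod.fst_neg, Prod.snd_neg]; push_cast; ring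
  simp_rw [h1]
  rw [integral_conj, h]
  simp only [map_mul, map_pow, Complex.conj_ofReal, ← ee_neg, neg_neg, nm_neg, map_ofNat]

theorem continuous_vz {c : ℤ × ℤ → ℂ} (hc : Summable fun k => ‖c k‖) (s : ℝ) :
    Continuous (v c s) :=
  (continuous_v hc).comp (continuous_const.prodMk continuous_id)

theorem continuous_Psi (J : ℕ) (k : ℤ × ℤ) (t : ℝ) (z₀ : ℝ × ℝ) (s : ℝ) :
    Continuous (Psi J k t z₀ s) := by
  unfold Psi
  refine continuous_finsetSum _ fun j _ => ?_
  have := continuous_dt (k + j)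
  fun_prop

theorem integrableOn_Box {f : ℝ × ℝ → ℂ} (hf : Continuous f) : IntegrableOn f Box :=
  hf.continuousOn.integrableOn_compact (isCompact_Icc.prod isCompact_Icc)

/-- `∫ Ψ v = (2π)² apk` -/
theorem int_Psi_v {c : ℤ × ℤ → ℂ} (hc : Summable fun k => ‖c k‖) (J : ℕ) (k : ℤ × ℤ)
    (t : ℝ) (z₀ : ℝ × ℝ) (s : ℝ) :
    ∫ z in Box, Psi J k t z₀ s z * v c s z = (2 * Real.pi : ℂ) ^ 2 * apk c J k t z₀ := by
  have h1 : ∀ z, Psi J k t z₀ s z * v c s z = ∑ j ∈ IJ J ×ˢ IJ J,
      (((win J j.1 * win J j.2 : ℝ) : ℂ) * ee (dt j z₀ + nm (k + j) * (s - t))) *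
        (ee (-(dt (k + j) z)) * v c s z) := by
    intro z
    unfold Psi
    rw [Finset.sum_mul]
    refine Finset.sum_congr rfl fun j _ => ?_
    rw [show dt j z₀ - dt (k + j) z + nm (k + j) * (s - t) =
      (dt j z₀ + nm (k + j) * (s - t)) + (-(dt (k + j) z)) by ring, ee_add]
    ring
  simp_rw [h1]
  rw [integral_finsetSum]
  · unfold apk
    rw [Finset.mul_sum]
    refine Finset.sum_congr rfl fun j _ => ?_
    rw [integral_const_mul, int_v hc]
    rw [show dt j z₀ - nm (k + j) * t = (dt j z₀ + nm (k + j) * (s - t)) + (-(nm (k + j) * s)) by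
      ring, ee_add (dt j z₀ + nm (k + j) * (s - t))]
    ring
  · intro j _
    apply integrableOn_Box
    have := continuous_dt (k + j)
    have := continuous_vz hc s
    fun_prop

/-- the cross term -/
noncomputable def XX (c : ℤ × ℤ → ℂ) (J : ℕ) (k : ℤ × ℤ) (t : ℝ) (z₀ : ℝ × ℝ) (s : ℝ) : ℂ :=
  ∑ j ∈ IJ J ×ˢ IJ J, ((win J j.1 * win J j.2 : ℝ) : ℂ) * (starRingEnd ℂ) (c (-(k + j))) *
    ee (dt j z₀ + nm (k + j) * (2 * s - t))

theorem int_Psi_vconj {c : ℤ × ℤ → ℂ} (hc : Summable fun k => ‖c k‖) (J : ℕ) (k : ℤ × ℤ)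
    (t : ℝ) (z₀ : ℝ × ℝ) (s : ℝ) :
    ∫ z in Box, Psi J k t z₀ s z * (starRingEnd ℂ) (v c s z) =
      (2 * Real.pi : ℂ) ^ 2 * XX c J k t z₀ s := by
  have h1 : ∀ z, Psi J k t z₀ s z * (starRingEnd ℂ) (v c s z) = ∑ j ∈ IJ J ×ˢ IJ J,
      (((win J j.1 * win J j.2 : ℝ) : ℂ) * ee (dt j z₀ + nm (k + j) * (s - t))) *
        (ee (-(dt (k + j) z)) * (starRingEnd ℂ) (v c s z)) := by
    intro z
    unfold Psi
    rw [Finset.sum_mul]
    refine Finset.sum_congr rfl fun j _ => ?_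
    rw [show dt j z₀ - dt (k + j) z + nm (k + j) * (s - t) =
      (dt j z₀ + nm (k + j) * (s - t)) + (-(dt (k + j) z)) by ring, ee_add]
    ring
  simp_rw [h1]
  rw [integral_finsetSum]
  · unfold XX
    rw [Finset.mul_sum]
    refine Finset.sum_congr rfl fun j _ => ?_
    rw [integral_const_mul, int_vconj hc]
    rw [show dt j z₀ + nm (k + j) * (2 * s - t) =
      (dt j z₀ + nm (k + j) * (s - t)) + (nm (k + j) * s) by
      ring, ee_add (dt j z₀ + nm (k + j) * (s - t))]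
    ring
  · intro j _
    apply integrableOn_Box
    have := continuous_dt (k + j)
    have := Complex.continuous_conj.comp (continuous_vz hc s)
    have h5 : Continuous fun z => (starRingEnd ℂ) (v c s z) := this
    fun_prop

/-! ### averaging in time -/

theorem binom_avg (n : ℕ) (x : ℝ) :
    ∑ i ∈ Finset.range (n + 1), (((n.choose i : ℝ) / 2 ^ n : ℝ) : ℂ) * ee (((n : ℝ) - 2 * i) * x) =
      ((Real.cos x ^ n : ℝ) : ℂ) := by
  have h1 : ∀ i ∈ Finset.range (n + 1),
      (((n.choose i : ℝ) / 2 ^ n : ℝ) : ℂ) * ee (((n : ℝ) - 2 * i) * x) =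
        Complex.exp (-(x : ℂ) * Complex.I) ^ i * Complex.exp ((x : ℂ) * Complex.I) ^ (n - i) *
          (n.choose i : ℂ) / 2 ^ n := by
    intro i hi
    rw [Finset.mem_range] at hi
    rw [← Complex.exp_nat_mul, ← Complex.exp_nat_mul, ← Complex.exp_add]
    unfold ee
    push_cast
    rw [Nat.cast_sub (by omega)]
    have : (i : ℂ) * (-(x : ℂ) * Complex.I) + ((n : ℂ) - i) * ((x : ℂ) * Complex.I) =
        ((n : ℂ) - 2 * i) * x * Complex.I := by ring
    rw [this]; ring
  rw [Finset.sum_congr rfl h1, ← Finset.sum_div, ← add_pow]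
  push_cast
  rw [show Complex.cos (x : ℂ) = (Complex.exp ((x : ℂ) * Complex.I) +
    Complex.exp (-(x : ℂ) * Complex.I)) / 2 from rfl, div_pow]
  rw [add_comm]

theorem binom_sum (n : ℕ) :
    ∑ i ∈ Finset.range (n + 1), ((n.choose i : ℝ) / 2 ^ n) = 1 := by
  rw [← Finset.sum_div]
  have := Nat.sum_range_choose n
  have h2 : ∑ i ∈ Finset.range (n + 1), (n.choose i : ℝ) = 2 ^ n := by exact_mod_cast this
  rw [h2]; exact div_self (by positivity)

/-- sampling points -/
noncomputable def sp (n : ℕ) (h₀ t' σ : ℝ) (i : ℕ) : ℝ := t' + σ + ((n : ℝ) - 2 * i) * h₀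

theorem norm_sum_XX_le {c : ℤ × ℤ → ℂ} {L J : ℕ} (hL : 13 ≤ L) {k : ℤ × ℤ} (hk : 1 ≤ nm k)
    (hJ : (L : ℝ) * J ≤ 2 * nm k) {ε M : ℝ} (hε : 0 ≤ ε) (hM : MB ε c M) (t : ℝ) (z₀ : ℝ × ℝ)
    (n : ℕ) (t' σ : ℝ) :
    ‖∑ i ∈ Finset.range (n + 1), (((n.choose i : ℝ) / 2 ^ n : ℝ) : ℂ) *
        XX c J k t z₀ (sp n (Real.pi / (4 * nm k)) t' σ i)‖ ≤
      Real.exp (2 * ε * nm k) * M * (1 / 2) ^ n := by
  set R := nm k with hR
  have hR0 : 0 < R := by linarith
  have hL' : (13 : ℝ) ≤ L := by exact_mod_cast hL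
  have hJ0 : (0 : ℝ) ≤ J := Nat.cast_nonneg J
  have hJR : 13 * (J : ℝ) ≤ 2 * R := by nlinarith
  set h₀ := Real.pi / (4 * R) with hh
  have key : ∑ i ∈ Finset.range (n + 1), (((n.choose i : ℝ) / 2 ^ n : ℝ) : ℂ) *
        XX c J k t z₀ (sp n h₀ t' σ i) =
      ∑ j ∈ IJ J ×ˢ IJ J, ((win J j.1 * win J j.2 : ℝ) : ℂ) * (starRingEnd ℂ) (c (-(k + j))) *
        ee (dt j z₀ + nm (k + j) * (2 * (t' + σ) - t)) *
          ((Real.cos (2 * nm (k + j) * h₀) ^ n : ℝ) : ℂ) := by
    unfold XX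
    simp_rw [Finset.mul_sum]
    rw [Finset.sum_comm]
    refine Finset.sum_congr rfl fun j _ => ?_
    rw [← binom_avg, Finset.mul_sum]
    refine Finset.sum_congr rfl fun i _ => ?_
    unfold sp
    rw [show dt j z₀ + nm (k + j) * (2 * (t' + σ + ((n : ℝ) - 2 * i) * h₀) - t) =
      (dt j z₀ + nm (k + j) * (2 * (t' + σ) - t)) + ((n : ℝ) - 2 * i) * (2 * nm (k + j) * h₀) by
        ring, ee_add (dt j z₀ + nm (k + j) * (2 * (t' + σ) - t))]
    ring
  rw [key]
  have hbd : ∀ j ∈ IJ J ×ˢ IJ J, ‖((win J j.1 * win J j.2 : ℝ) : ℂ) *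
      (starRingEnd ℂ) (c (-(k + j))) * ee (dt j z₀ + nm (k + j) * (2 * (t' + σ) - t)) *
          ((Real.cos (2 * nm (k + j) * h₀) ^ n : ℝ) : ℂ)‖ ≤
      win J j.1 * win J j.2 * (Real.exp (2 * ε * R) * M * (1 / 2) ^ n) := by
    intro j hj
    rw [Finset.mem_product, mem_IJ', mem_IJ'] at hj
    have hj1 : |(j.1 : ℝ)| ≤ J := by exact_mod_cast hj.1
    have hj2 : |(j.2 : ℝ)| ≤ J := by exact_mod_cast hj.2
    have hnj : nm j ≤ 2 * J := (nm_le_abs_add_abs j).trans (by linarith)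
    have hww : 0 ≤ win J j.1 * win J j.2 := mul_nonneg (win_nonneg _ _) (win_nonneg _ _)
    rw [norm_mul, norm_mul, norm_mul, norm_ee, mul_one, RCLike.norm_conj, Complex.norm_real,
      Complex.norm_real, Real.norm_of_nonneg hww, Real.norm_eq_abs, abs_pow]
    have hc1 : ‖c (-(k + j))‖ ≤ Real.exp (2 * ε * R) * M := by
      refine (hM.le _).trans ?_
      refine mul_le_mul_of_nonneg_right (Real.exp_le_exp.mpr ?_) hM.nonneg
      rw [nm_neg]
      have : nm (k + j) ≤ 2 * R := by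
        have := nm_add_le k j
        linarith
      nlinarith
    have hcos : |Real.cos (2 * nm (k + j) * h₀)| ≤ 1 / 2 := by
      have h1 : 2 * nm (k + j) * h₀ = 2 * (nm (k + j) - R) * h₀ + Real.pi / 2 := by
        rw [hh]; field_simp; ring
      rw [h1, Real.cos_add_pi_div_two, abs_neg]
      have hpi := Real.pi_pos
      have hpi2 := Real.pi_lt_d2
      have h0 : 0 < h₀ := by rw [hh]; positivity
      calc |Real.sin (2 * (nm (k + j) - R) * h₀)| ≤ |2 * (nm (k + j) - R) * h₀| :=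
            Real.abs_sin_le_abs
        _ = 2 * |nm (k + j) - R| * h₀ := by
            rw [abs_mul, abs_mul, abs_of_pos h0, abs_of_pos (by norm_num : (0 : ℝ) < 2)]
        _ ≤ 2 * (2 * J) * h₀ := by
            have := abs_nm_add_sub_le k j
            gcongr
            exact this.trans hnj
        _ = J * Real.pi / R := by rw [hh]; field_simp; ring
        _ ≤ 1 / 2 := by
            rw [div_le_iff₀ hR0]
            nlinarith
    calc win J j.1 * win J j.2 * ‖c (-(k + j))‖ * |Real.cos (2 * nm (k + j) * h₀)| ^ n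
        ≤ win J j.1 * win J j.2 * (Real.exp (2 * ε * R) * M) * (1 / 2) ^ n := by
          have hq : 0 ≤ Real.exp (2 * ε * R) * M := mul_nonneg (Real.exp_pos _).le hM.nonneg
          exact mul_le_mul (mul_le_mul_of_nonneg_left hc1 hww)
            (pow_le_pow_left₀ (abs_nonneg _) hcos n) (by positivity) (mul_nonneg hww hq)
      _ = _ := by ring
  refine (norm_sum_le _ _).trans ((Finset.sum_le_sum hbd).trans (le_of_eq ?_))
  rw [← Finset.sum_mul, Finset.sum_product, ← Finset.sum_mul_sum, win_sum]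
  ring

theorem exp_bound {R ε : ℝ} (hR : 1 ≤ R) (hε : ε ≤ 1 / 1000) {n : ℕ}
    (hn : 1 / 100 / (Real.pi / (4 * R)) - 1 ≤ n) :
    Real.exp (2 * ε * R) * (1 / 2) ^ n ≤ 400 / R := by
  have hpi := Real.pi_pos
  have hpi2 := Real.pi_lt_d2
  have hR0 : 0 < R := by linarith
  have h1 : 1 / 100 / (Real.pi / (4 * R)) = R / (25 * Real.pi) := by field_simp; ring
  rw [h1] at hn
  have h2 : R / 80 ≤ R / (25 * Real.pi) := by
    apply div_le_div_of_nonneg_left hR0.le (by positivity)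
    nlinarith
  have hn' : R / 80 - 1 ≤ n := by linarith
  have h3 : ((1 : ℝ) / 2) ^ n = Real.exp (-(n * Real.log 2)) := by
    rw [Real.exp_neg, mul_comm, Real.exp_mul, Real.exp_log (by norm_num), Real.rpow_natCast]
    rw [one_div, inv_pow]
  rw [h3, ← Real.exp_add]
  have hl := Real.log_two_gt_d9
  have hl2 := Real.log_two_lt_d9
  have h4 : 2 * ε * R + -(n * Real.log 2) ≤ 0.7 - R / 160 := by
    have : (R / 80 - 1) * Real.log 2 ≤ n * Real.log 2 :=
      mul_le_mul_of_nonneg_right hn' (by linarith)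
    have h5 : R * 0.69 ≤ R * Real.log 2 := by nlinarith
    have h6 : ε * R ≤ 1 / 1000 * R := by nlinarith
    nlinarith
  have h7 : Real.exp (0.7 - R / 160) ≤ 400 / R := by
    rw [Real.exp_sub]
    have h8 : Real.exp 0.7 ≤ 2.5 := by
      have : Real.exp 0.7 ≤ Real.exp (2 * Real.log 2) / Real.exp 0.6 := by
        rw [← Real.exp_sub]; apply Real.exp_le_exp.mpr; linarith
      have h9 : Real.exp (2 * Real.log 2) = 4 := by
        rw [two_mul, Real.exp_add, Real.exp_log (by norm_num)]; norm_num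
      have h10 : 1.6 ≤ Real.exp 0.6 := by
        have := Real.add_one_le_exp (0.6 : ℝ); linarith
      rw [h9] at this
      refine this.trans ?_
      rw [div_le_iff₀ (by linarith)]
      linarith
    have h11 : R / 160 ≤ Real.exp (R / 160) := by
      have := Real.add_one_le_exp (R / 160); linarith
    have h12 : 0 < R / 160 := by positivity
    calc Real.exp 0.7 / Real.exp (R / 160) ≤ 2.5 / (R / 160) := by
          gcongr
      _ = 400 / R := by field_simp; norm_num
  exact (Real.exp_le_exp.mpr h4).trans h7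

/-! ### the observation -/

theorem measurableSet_QQ : MeasurableSet QQ := measurableSet_Ioo.prod measurableSet_Ioo

instance : IsFiniteMeasure (volume.restrict QQ) := ⟨by
  rw [Measure.restrict_apply_univ]
  have : Bornology.IsBounded QQ := (Metric.isBounded_Ioo _ _).prod (Metric.isBounded_Ioo _ _)
  exact this.measure_lt_top⟩

theorem continuous_mm {h : ℝ → ℝ} (hh : Cut h) {c : ℤ × ℤ → ℂ} (hc : Summable fun k => ‖c k‖) :
    Continuous (mm h c) := by
  have hcont : Continuous h := hh.smooth.continuous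
  have hu := continuous_u hc
  unfold mm
  refine continuous_of_dominated (bound := fun _ => 2 * ∑' k, ‖c k‖) ?_ ?_ ?_ ?_
  · intro t
    have hut : Continuous fun z => u c t z := hu.comp (continuous_const.prodMk continuous_id)
    have : Continuous fun z : ℝ × ℝ =>
        h (z.1 ^ 2 + z.2 ^ 2) * (Real.sin z.1 * Real.sin z.2) * u c t z := by fun_prop
    exact this.aestronglyMeasurable
  · intro t
    refine Filter.Eventually.of_forall fun z => ?_
    rw [norm_mul, norm_mul, norm_mul]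
    have h1 : ‖h (z.1 ^ 2 + z.2 ^ 2)‖ ≤ 1 := by
      rw [Real.norm_of_nonneg (hh.nonneg _)]; exact hh.le_one _
    have h2 : ‖Real.sin z.1‖ ≤ 1 := by rw [Real.norm_eq_abs]; exact Real.abs_sin_le_one _
    have h3 : ‖Real.sin z.2‖ ≤ 1 := by rw [Real.norm_eq_abs]; exact Real.abs_sin_le_one _
    have h4 : ‖u c t z‖ ≤ 2 * ∑' k, ‖c k‖ := by
      unfold u
      rw [Real.norm_eq_abs, abs_mul, abs_of_pos (by norm_num : (0 : ℝ) < 2)]
      have := (Complex.abs_re_le_norm (v c t z)).trans (norm_v_le hc t z)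
      linarith
    have h5 : 0 ≤ 2 * ∑' k, ‖c k‖ := (norm_nonneg _).trans h4
    calc ‖h (z.1 ^ 2 + z.2 ^ 2)‖ * (‖Real.sin z.1‖ * ‖Real.sin z.2‖) * ‖u c t z‖
        ≤ 1 * (1 * 1) * (2 * ∑' k, ‖c k‖) := by gcongr
      _ = _ := by ring
  · exact integrable_const _
  · refine Filter.Eventually.of_forall fun z => ?_
    have hut : Continuous fun t => u c t z := hu.comp (continuous_id.prodMk continuous_const)
    fun_prop

theorem mm_nonneg {h : ℝ → ℝ} (hh : Cut h) {c : ℤ × ℤ → ℂ} {t : ℝ}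
    (hu : ∀ z ∈ QQ, 0 ≤ u c t z) : 0 ≤ mm h c t := by
  unfold mm
  refine setIntegral_nonneg measurableSet_QQ fun z hz => ?_
  have hz' := hz
  obtain ⟨⟨h1, h2⟩, h3, h4⟩ := hz'
  have hpi := Real.pi_pos
  have hs1 : 0 ≤ Real.sin z.1 := Real.sin_nonneg_of_nonneg_of_le_pi h1.le (by linarith)
  have hs2 : 0 ≤ Real.sin z.2 := Real.sin_nonneg_of_nonneg_of_le_pi h3.le (by linarith)
  exact mul_nonneg (mul_nonneg (hh.nonneg _) (mul_nonneg hs1 hs2)) (hu z hz)

theorem main_identity {h : ℝ → ℝ} (hh : Cut h) {c : ℤ × ℤ → ℂ} (hc : Summable fun k => ‖c k‖)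
    (J : ℕ) (k : ℤ × ℤ) (t : ℝ) (z₀ : ℝ × ℝ) (s : ℝ) :
    (2 * Real.pi : ℂ) ^ 2 * apk c J k t z₀ =
      (∫ z in Box, (h (z.1 ^ 2 + z.2 ^ 2) : ℂ) * Psi J k t z₀ s z * (u c s z : ℂ)) -
      (2 * Real.pi : ℂ) ^ 2 * XX c J k t z₀ s +
      (∫ z in Box, ((1 - h (z.1 ^ 2 + z.2 ^ 2) : ℝ) : ℂ) * Psi J k t z₀ s z * v c s z) +
      (∫ z in Box, ((1 - h (z.1 ^ 2 + z.2 ^ 2) : ℝ) : ℂ) * Psi J k t z₀ s z *
        (starRingEnd ℂ) (v c s z)) := by
  have hcont : Continuous h := hh.smooth.continuous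
  have hP := continuous_Psi J k t z₀ s
  have hv := continuous_vz hc s
  have hv' : Continuous fun z => (starRingEnd ℂ) (v c s z) := Complex.continuous_conj.comp hv
  rw [← int_Psi_v hc J k t z₀ s, ← int_Psi_vconj hc J k t z₀ s]
  have e1 : (∫ z in Box, (h (z.1 ^ 2 + z.2 ^ 2) : ℂ) * Psi J k t z₀ s z * (u c s z : ℂ)) =
      (∫ z in Box, (h (z.1 ^ 2 + z.2 ^ 2) : ℂ) * Psi J k t z₀ s z * v c s z) +
      (∫ z in Box, (h (z.1 ^ 2 + z.2 ^ 2) : ℂ) * Psi J k t z₀ s z * (starRingEnd ℂ) (v c s z)) := by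
    rw [← integral_add]
    · congr 1
      funext z
      rw [u_eq]; ring
    · apply integrableOn_Box
      have : Continuous fun z : ℝ × ℝ => ((h (z.1 ^ 2 + z.2 ^ 2) : ℝ) : ℂ) :=
        Complex.continuous_ofReal.comp (hcont.comp (by fun_prop))
      fun_prop
    · apply integrableOn_Box
      have : Continuous fun z : ℝ × ℝ => ((h (z.1 ^ 2 + z.2 ^ 2) : ℝ) : ℂ) :=
        Complex.continuous_ofReal.comp (hcont.comp (by fun_prop))
      fun_prop
  have split : ∀ f : ℝ × ℝ → ℂ, Continuous f →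
      (∫ z in Box, Psi J k t z₀ s z * f z) =
      (∫ z in Box, (h (z.1 ^ 2 + z.2 ^ 2) : ℂ) * Psi J k t z₀ s z * f z) +
      (∫ z in Box, ((1 - h (z.1 ^ 2 + z.2 ^ 2) : ℝ) : ℂ) * Psi J k t z₀ s z * f z) := by
    intro f hf
    rw [← integral_add]
    · congr 1
      funext z
      push_cast; ring
    · apply integrableOn_Box
      have : Continuous fun z : ℝ × ℝ => ((h (z.1 ^ 2 + z.2 ^ 2) : ℝ) : ℂ) :=
        Complex.continuous_ofReal.comp (hcont.comp (by fun_prop))
      fun_prop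
    · apply integrableOn_Box
      have : Continuous fun z : ℝ × ℝ => ((1 - h (z.1 ^ 2 + z.2 ^ 2) : ℝ) : ℂ) :=
        Complex.continuous_ofReal.comp (continuous_const.sub (hcont.comp (by fun_prop)))
      fun_prop
  rw [e1, split _ hv, split _ hv']
  ring

/-- (TEST) -/
theorem test (hA : T_testA) (hB : T_testB) : T_test := by
  obtain ⟨L₀, hB⟩ := hB
  refine ⟨max L₀ 13, fun L hL h hh => ?_⟩
  have hL1 : L₀ ≤ L := (le_max_left _ _).trans hL
  have hL2 : 13 ≤ L := (le_max_right _ _).trans hL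
  obtain ⟨ε₂, C, ρ₀, hε₂, hC, hρ₀, hB⟩ := hB L hL1 h hh
  refine ⟨min ε₂ (1 / 1000), 1600 + (400 + 2 * C), ρ₀, by positivity, by positivity, hρ₀, ?_⟩
  intro ε hε hεle T ρ c N M hρ hcoef hN hM hpos k J hk hJ1 hJ2 t t' z₀ ht' htt hvis
  have hε1 : ε ≤ ε₂ := hεle.trans (min_le_left _ _)
  have hε2 : ε ≤ 1 / 1000 := hεle.trans (min_le_right _ _)
  have hc := hcoef.sum
  set R := nm k with hR
  have hR1 : 1 ≤ R := by linarith
  have hR0 : 0 < R := by linarith
  have hpi := Real.pi_pos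
  have hpi2 := Real.pi_lt_d2
  have hpi3 := Real.pi_gt_d2
  set h₀ := Real.pi / (4 * R) with hh₀
  have hh₀pos : 0 < h₀ := by rw [hh₀]; positivity
  set n := ⌊1 / 100 / h₀⌋₊ with hn
  have hn1 : (n : ℝ) * h₀ ≤ 1 / 100 := by
    have : (n : ℝ) ≤ 1 / 100 / h₀ := Nat.floor_le (by positivity)
    rwa [le_div_iff₀ hh₀pos] at this
  have hn2 : 1 / 100 / h₀ - 1 ≤ n := by
    have := Nat.lt_floor_add_one (1 / 100 / h₀)
    linarith
  have hexp := exp_bound hR1 hε2 hn2
  have hT1 : 1 ≤ T := by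
    have := abs_nonneg t'
    linarith
  have hsp : ∀ σ ∈ Set.Icc (0 : ℝ) (1 / 100), ∀ i ∈ Finset.range (n + 1),
      |sp n h₀ t' σ i - t'| ≤ 1 / 50 := by
    intro σ hσ i hi
    rw [Finset.mem_range] at hi
    have hi' : (i : ℝ) ≤ n := by exact_mod_cast Nat.lt_succ_iff.mp hi
    have hi0 : (0 : ℝ) ≤ i := Nat.cast_nonneg i
    unfold sp
    rw [abs_le]
    constructor
    · nlinarith [hσ.1, hσ.2]
    · nlinarith [hσ.1, hσ.2]
  have hspT : ∀ σ ∈ Set.Icc (0 : ℝ) (1 / 100), ∀ i ∈ Finset.range (n + 1),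
      |sp n h₀ t' σ i| ≤ T := by
    intro σ hσ i hi
    have h1 := hsp σ hσ i hi
    have h2 : |sp n h₀ t' σ i| ≤ |sp n h₀ t' σ i - t'| + |t'| := by
      have := abs_add_le (sp n h₀ t' σ i - t') t'
      simpa using this
    linarith
  have hmm0 : ∀ s, |s| ≤ T → 0 ≤ mm h c s := fun s hs => mm_nonneg hh (hpos s hs)
  have hmmc := continuous_mm hh hc
  have hJR : (J : ℝ) ≤ R := by
    have hL' : (13 : ℝ) ≤ L := by exact_mod_cast hL2
    have hJ0 : (0 : ℝ) ≤ J := Nat.cast_nonneg J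
    nlinarith
  set P : ℕ → ℝ := fun i => (n.choose i : ℝ) / 2 ^ n with hP
  have hP0 : ∀ i, 0 ≤ P i := fun i => by simp only [hP]; positivity
  have hPs : ∑ i ∈ Finset.range (n + 1), P i = 1 := binom_sum n
  set K : ℝ := (2 * Real.pi) ^ 2 * ‖apk c J k t z₀‖ with hK
  set E : ℝ := (2 * Real.pi) ^ 2 * (400 / R * M) + 2 * (C / R * (N + M)) with hE
  have step : ∀ σ ∈ Set.Icc (0 : ℝ) (1 / 100),
      K ≤ (∑ i ∈ Finset.range (n + 1), P i * (16 * R ^ 2 * mm h c (sp n h₀ t' σ i))) + E := by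
    intro σ hσ
    set A : ℝ → ℂ := fun s =>
      ∫ z in Box, (h (z.1 ^ 2 + z.2 ^ 2) : ℂ) * Psi J k t z₀ s z * (u c s z : ℂ) with hAdef
    set B1 : ℝ → ℂ := fun s =>
      ∫ z in Box, ((1 - h (z.1 ^ 2 + z.2 ^ 2) : ℝ) : ℂ) * Psi J k t z₀ s z * v c s z with hB1def
    set B2 : ℝ → ℂ := fun s =>
      ∫ z in Box, ((1 - h (z.1 ^ 2 + z.2 ^ 2) : ℝ) : ℂ) * Psi J k t z₀ s z *
        (starRingEnd ℂ) (v c s z) with hB2def
    have id1 : ∀ s, (2 * Real.pi : ℂ) ^ 2 * apk c J k t z₀ =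
        A s - (2 * Real.pi : ℂ) ^ 2 * XX c J k t z₀ s + B1 s + B2 s :=
      fun s => main_identity hh hc J k t z₀ s
    have id2 : (2 * Real.pi : ℂ) ^ 2 * apk c J k t z₀ =
        (∑ i ∈ Finset.range (n + 1), ((P i : ℝ) : ℂ) * A (sp n h₀ t' σ i)) -
        (2 * Real.pi : ℂ) ^ 2 * (∑ i ∈ Finset.range (n + 1), ((P i : ℝ) : ℂ) *
          XX c J k t z₀ (sp n h₀ t' σ i)) +
        (∑ i ∈ Finset.range (n + 1), ((P i : ℝ) : ℂ) * B1 (sp n h₀ t' σ i)) +
        (∑ i ∈ Finset.range (n + 1), ((P i : ℝ) : ℂ) * B2 (sp n h₀ t' σ i)) := by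
      have h1 : (2 * Real.pi : ℂ) ^ 2 * apk c J k t z₀ =
          ∑ i ∈ Finset.range (n + 1), ((P i : ℝ) : ℂ) * ((2 * Real.pi : ℂ) ^ 2 *
            apk c J k t z₀) := by
        rw [← Finset.sum_mul]
        have : ∑ i ∈ Finset.range (n + 1), ((P i : ℝ) : ℂ) = 1 := by exact_mod_cast hPs
        rw [this, one_mul]
      rw [h1, Finset.mul_sum, ← Finset.sum_sub_distrib, ← Finset.sum_add_distrib,
        ← Finset.sum_add_distrib]
      refine Finset.sum_congr rfl fun i _ => ?_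
      rw [id1 (sp n h₀ t' σ i)]
      ring
    have nA : ‖∑ i ∈ Finset.range (n + 1), ((P i : ℝ) : ℂ) * A (sp n h₀ t' σ i)‖ ≤
        ∑ i ∈ Finset.range (n + 1), P i * (16 * R ^ 2 * mm h c (sp n h₀ t' σ i)) := by
      refine (norm_sum_le _ _).trans (Finset.sum_le_sum fun i hi => ?_)
      rw [norm_mul, Complex.norm_real, Real.norm_of_nonneg (hP0 i)]
      refine mul_le_mul_of_nonneg_left ?_ (hP0 i)
      exact hA h hh c hcoef _ (hpos _ (hspT σ hσ i hi)) J k t z₀ hJR
    have nX : ‖∑ i ∈ Finset.range (n + 1), ((P i : ℝ) : ℂ) *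
          XX c J k t z₀ (sp n h₀ t' σ i)‖ ≤ 400 / R * M := by
      refine (norm_sum_XX_le hL2 hR1 hJ1 hε.le hM t z₀ n t' σ).trans ?_
      have := mul_le_mul_of_nonneg_right hexp hM.nonneg
      linarith
    have nB1 : ‖∑ i ∈ Finset.range (n + 1), ((P i : ℝ) : ℂ) * B1 (sp n h₀ t' σ i)‖ ≤
        C / R * (N + M) := by
      refine (norm_sum_le _ _).trans ?_
      have : ∀ i ∈ Finset.range (n + 1), ‖((P i : ℝ) : ℂ) * B1 (sp n h₀ t' σ i)‖ ≤
          P i * (C / R * (N + M)) := by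
        intro i hi
        rw [norm_mul, Complex.norm_real, Real.norm_of_nonneg (hP0 i)]
        refine mul_le_mul_of_nonneg_left ?_ (hP0 i)
        exact (hB ε hε hε1 T ρ c N M hρ hcoef hN hM k J hk hJ1 hJ2 t t' _ z₀ (hspT σ hσ i hi)
          (hsp σ hσ i hi) htt hvis).1
      refine (Finset.sum_le_sum this).trans (le_of_eq ?_)
      rw [← Finset.sum_mul, hPs, one_mul]
    have nB2 : ‖∑ i ∈ Finset.range (n + 1), ((P i : ℝ) : ℂ) * B2 (sp n h₀ t' σ i)‖ ≤
        C / R * (N + M) := by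
      refine (norm_sum_le _ _).trans ?_
      have : ∀ i ∈ Finset.range (n + 1), ‖((P i : ℝ) : ℂ) * B2 (sp n h₀ t' σ i)‖ ≤
          P i * (C / R * (N + M)) := by
        intro i hi
        rw [norm_mul, Complex.norm_real, Real.norm_of_nonneg (hP0 i)]
        refine mul_le_mul_of_nonneg_left ?_ (hP0 i)
        exact (hB ε hε hε1 T ρ c N M hρ hcoef hN hM k J hk hJ1 hJ2 t t' _ z₀ (hspT σ hσ i hi)
          (hsp σ hσ i hi) htt hvis).2
      refine (Finset.sum_le_sum this).trans (le_of_eq ?_)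
      rw [← Finset.sum_mul, hPs, one_mul]
    have hpc : ‖(2 * Real.pi : ℂ) ^ 2‖ = (2 * Real.pi) ^ 2 := by
      rw [norm_pow, norm_mul, Complex.norm_real, Real.norm_of_nonneg hpi.le]; simp
    have hK' : K = ‖(2 * Real.pi : ℂ) ^ 2 * apk c J k t z₀‖ := by
      rw [norm_mul, hpc]
    rw [hK', id2]
    refine (norm_add_le _ _).trans ?_
    refine (add_le_add_left (norm_add_le _ _) _).trans ?_
    refine (add_le_add_left (add_le_add_left (norm_sub_le _ _) _) _).trans ?_
    rw [norm_mul, hpc]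
    have h3 := mul_le_mul_of_nonneg_left nX (by positivity : (0 : ℝ) ≤ (2 * Real.pi) ^ 2)
    rw [hE]
    linarith
  -- integrate over `σ`
  have hII0 : 0 ≤ II h c T := by
    unfold II
    refine intervalIntegral.integral_nonneg (by linarith) fun s hs => ?_
    exact hmm0 s (abs_le.mpr ⟨by linarith [hs.1], hs.2⟩)
  have hint : K * (1 / 100) ≤ 16 * R ^ 2 * II h c T + E * (1 / 100) := by
    have h1 : ∫ _σ in (0 : ℝ)..(1 / 100), K = K * (1 / 100) := by
      rw [intervalIntegral.integral_const, smul_eq_mul]; ring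
    have h2 : ∫ σ in (0 : ℝ)..(1 / 100),
        ((∑ i ∈ Finset.range (n + 1), P i * (16 * R ^ 2 * mm h c (sp n h₀ t' σ i))) + E) =
        (∑ i ∈ Finset.range (n + 1), P i * (16 * R ^ 2 *
          ∫ σ in (0 : ℝ)..(1 / 100), mm h c (sp n h₀ t' σ i))) + E * (1 / 100) := by
      rw [intervalIntegral.integral_add, intervalIntegral.integral_finsetSum]
      · congr 1
        · refine Finset.sum_congr rfl fun i _ => ?_
          rw [intervalIntegral.integral_const_mul, intervalIntegral.integral_const_mul]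
        · rw [intervalIntegral.integral_const, smul_eq_mul]; ring
      · intro i _
        apply Continuous.intervalIntegrable
        unfold sp
        fun_prop
      · apply Continuous.intervalIntegrable
        unfold sp
        fun_prop
      · exact intervalIntegrable_const
    have h3 : ∫ _σ in (0 : ℝ)..(1 / 100), K ≤ ∫ σ in (0 : ℝ)..(1 / 100),
        ((∑ i ∈ Finset.range (n + 1), P i * (16 * R ^ 2 * mm h c (sp n h₀ t' σ i))) + E) := by
      refine intervalIntegral.integral_mono_on (by norm_num) intervalIntegrable_const ?_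
        (fun σ hσ => step σ hσ)
      apply Continuous.intervalIntegrable
      unfold sp
      fun_prop
    have h4 : ∀ i ∈ Finset.range (n + 1),
        ∫ σ in (0 : ℝ)..(1 / 100), mm h c (sp n h₀ t' σ i) ≤ II h c T := by
      intro i hi
      have e : ∀ σ, sp n h₀ t' σ i = σ + (t' + ((n : ℝ) - 2 * i) * h₀) := by
        intro σ; unfold sp; ring
      simp_rw [e]
      rw [intervalIntegral.integral_comp_add_right]
      have ha := hspT 0 ⟨le_rfl, by norm_num⟩ i hi
      have hb := hspT (1 / 100) ⟨by norm_num, le_rfl⟩ i hi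
      rw [e] at ha hb
      unfold II
      refine intervalIntegral.integral_mono_interval (abs_le.mp ha).1 (by linarith)
        (abs_le.mp hb).2 ?_ (hmmc.intervalIntegrable _ _)
      refine (ae_restrict_iff' measurableSet_Ioc).mpr (Filter.Eventually.of_forall fun s hs => ?_)
      exact hmm0 s (abs_le.mpr ⟨hs.1.le, hs.2⟩)
    have h5 : (∑ i ∈ Finset.range (n + 1), P i * (16 * R ^ 2 *
          ∫ σ in (0 : ℝ)..(1 / 100), mm h c (sp n h₀ t' σ i))) ≤ 16 * R ^ 2 * II h c T := by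
      have : ∀ i ∈ Finset.range (n + 1), P i * (16 * R ^ 2 *
          ∫ σ in (0 : ℝ)..(1 / 100), mm h c (sp n h₀ t' σ i)) ≤
          P i * (16 * R ^ 2 * II h c T) := by
        intro i hi
        have := h4 i hi
        have := hP0 i
        gcongr
      refine (Finset.sum_le_sum this).trans (le_of_eq ?_)
      rw [← Finset.sum_mul, hPs, one_mul]
    rw [h1, h2] at h3
    linarith
  have hNM : M ≤ N + M := by linarith [hN.nonneg]
  have hM0 := hM.nonneg
  have hN0 := hN.nonneg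
  have hq : (1 : ℝ) ≤ (2 * Real.pi) ^ 2 := by nlinarith
  have hK2 : K ≤ 1600 * R ^ 2 * II h c T + E := by linarith
  have hdiv : ‖apk c J k t z₀‖ ≤ 1600 * R ^ 2 * II h c T + 400 / R * M +
      2 * (C / R * (N + M)) := by
    by_contra hcon
    rw [not_le] at hcon
    have h1 : (2 * Real.pi) ^ 2 * (1600 * R ^ 2 * II h c T + 400 / R * M +
      2 * (C / R * (N + M))) < K := by
      rw [hK]
      exact mul_lt_mul_of_pos_left hcon (by positivity)
    have h2 : 0 ≤ 1600 * R ^ 2 * II h c T := by positivity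
    have h3 : 0 ≤ 2 * (C / R * (N + M)) := by positivity
    have h4 : 1 * (1600 * R ^ 2 * II h c T) ≤ (2 * Real.pi) ^ 2 * (1600 * R ^ 2 * II h c T) :=
      mul_le_mul_of_nonneg_right hq h2
    have h5 : 1 * (2 * (C / R * (N + M))) ≤ (2 * Real.pi) ^ 2 * (2 * (C / R * (N + M))) :=
      mul_le_mul_of_nonneg_right hq h3
    rw [hE] at hK2
    linarith
  have h6 : 400 / R * M ≤ 400 / R * (N + M) := by gcongr
  have h7 : 400 / R * (N + M) + 2 * (C / R * (N + M)) = (400 + 2 * C) / R * (N + M) := by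
    ring
  have h8 : 0 ≤ (400 + 2 * C) * R ^ 2 * II h c T := by positivity
  have h9 : 0 ≤ 1600 / R * (N + M) := by positivity
  have h10 : (1600 + (400 + 2 * C)) * R ^ 2 * II h c T = 1600 * R ^ 2 * II h c T +
    (400 + 2 * C) * R ^ 2 * II h c T := by ring
  have h11 : (1600 + (400 + 2 * C)) / R * (N + M) = 1600 / R * (N + M) +
    (400 + 2 * C) / R * (N + M) := by ring
  rw [h10, h11]
  linarith

end Pool.Agent.H24.VM
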